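import Pool.Agent.Q164.RCA.Stmts
import Pool.Agent.Q164.RCA.Main
import Pool.Agent.Q164.RCA.TaskFunc
import Pool.Agent.Q164.RCA.TaskFuncOne
import Pool.Agent.Q164.RCA.TaskReduce
import Pool.Agent.Q164.RCA.TaskResid
import Pool.Agent.Q164.RCA.TaskElim
import Pool.Agent.Q164.RCA.TaskIter
import Pool.Agent.Q164.RCA.TaskChain
import Pool.Agent.Q164.RCA.TaskAinf
import Pool.Agent.Q164.RCA.TaskMinX
import Pool.Agent.Q164.RCA.TaskMinInf
import Pool.Agent.Q164.RCA.TaskFinInt
import Pool.Agent.Q164.RCA.TaskDen
import Pool.Agent.Q164.RCA.TaskDenInf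
import Pool.Agent.Q164.RCA.TaskFinite
import Pool.Agent.Q164.RCA.TaskCycle
import Pool.Agent.Q164.RCA.TaskMono
import Pool.Agent.Q164.RCA.TaskUnit
import Pool.Agent.Q164.RCA.TaskRoot
import Pool.Agent.Q164.RCA.TaskFieldMain
import Pool.Agent.Q164.RCA.TaskEigen
import Pool.Agent.Q164.RCA.TaskInt
import Pool.Agent.Q164.RCA.TaskBack
import Pool.Agent.Q164.RCA.TaskMatMain
import Pool.Agent.Q164.RCA.TaskEmbInj
import Pool.Agent.Q164.RCA.TaskEmbSurj
import Pool.Agent.Q164.RCA.TaskEmbSh
import Pool.Agent.Q164.RCA.TaskRep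
import Pool.Agent.Q164.RCA.TaskPig
import Pool.Agent.Q164.RCA.TaskVec
import Pool.Agent.Q164.RCA.TaskGroup
import Pool.Agent.Q164.RCA.TaskDens
import Pool.Agent.Q164.RCA.TaskLocal
import Pool.Agent.Q164.RCA.TaskInvCA
import Pool.Agent.Q164.RCA.TaskEv
import Pool.Agent.Q164.RCA.TaskDualW
import Pool.Agent.Q164.RCA.TaskDualEquiv
import Pool.Agent.Q164.RCA.TaskLam
import Pool.Agent.Q164.RCA.TaskBern
import Pool.Agent.Q164.RCA.TaskStone
import Pool.Agent.Q164.RCA.TaskConv
import Pool.Agent.Q164.RCA.TaskMap

/-!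
# MP_b3f678_an, Q1 (answer: NO)

Every reversible abelian cellular automaton on `A^ℤ` (`A` a finite abelian group) that is randomizing in
density is strongly randomizing. The definitions (`IsAbelianCA`, `ev`, `HarmonicallyMixing`, `lam`,
`ConvTo`, `DensityOne`, `StronglyRandomizing`, `RandomizingInDensity`) are in Part 4 of
`Pool/Agent/Q164/RCA/Stmts.lean`.
-/

open MeasureTheory Pool.Agent.Q164.RCA

namespace Pool.Agent.Results.MP_b3f678_an.DensityIsStrong

theorem field_main : TaskFieldMain :=
  TaskFieldMain.main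
    (TaskCycle.main
      (TaskIter.main (TaskElim.main (TaskReduce.main TaskFunc.main TaskFuncOne.main) TaskResid.main))
      TaskChain.main
      (TaskFinite.main (TaskFinInt.main TaskMinX.main (TaskMinInf.main TaskAinf.main)) TaskDen.main
        TaskDenInf.main))
    TaskMono.main TaskUnit.main TaskRoot.main

theorem group_main : TaskGroup :=
  TaskGroup.main
    (TaskVec.main (TaskMatMain.main field_main TaskEigen.main TaskInt.main TaskBack.main)
      TaskEmbInj.main TaskEmbSurj.main TaskEmbSh.main (TaskRep.main TaskEmbSh.main) TaskPig.main)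

theorem dual_main : TaskDualEquiv :=
  TaskDualEquiv.main (TaskDualW.main TaskLocal.main TaskEv.main) TaskInvCA.main TaskEv.main

/-- **Q1 of MP_b3f678_an, answered negatively.** A reversible abelian cellular automaton that is
randomizing in density is strongly randomizing. -/
theorem result (A : Type) [AddCommGroup A] [Fintype A] [TopologicalSpace A] [DiscreteTopology A]
    [MeasurableSpace A] [MeasurableSingletonClass A] (F : (ℤ → A) → (ℤ → A))
    (hF : IsAbelianCA F) (hrev : Function.Bijective F) (hdens : RandomizingInDensity F) :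
    StronglyRandomizing F :=
  Main.main group_main TaskDens.main dual_main TaskLam.main TaskBern.main TaskStone.main
    TaskConv.main TaskMap.main A F hF hrev hdens

end Pool.Agent.Results.MP_b3f678_an.DensityIsStrong
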